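import Mathlib
import Pool.Agent.Lib.MP_9ed947_gt.Strip

namespace Pool.Agent.Results.MP_9ed947_gt.NoBetterConstant

open MeasureTheory Pool.Agent.Lib.MP_9ed947_gt

/-- The indexed family `A` is a partition of `X`: nonempty, pairwise disjoint pieces with union `X`. -/
def IsPartition {ι : Type} (X : Set UpperHalfPlane) (A : ι → Set UpperHalfPlane) : Prop :=
  (∀ i, (A i).Nonempty) ∧ (∀ i j, i ≠ j → Disjoint (A i) (A j)) ∧ ⋃ i, A i = X

/-- For every `c > log 2` there is a Borel set of positive hyperbolic area with a paradoxical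
decomposition with Borel pieces, all of whose isometries move some point `P` by less than `c`. -/
theorem result (c : ℝ) (hc : Real.log 2 < c) :
    ∃ (X : Set UpperHalfPlane) (m n : ℕ) (ρ : Fin m → UpperHalfPlane ≃ᵢ UpperHalfPlane)
      (σ : Fin n → UpperHalfPlane ≃ᵢ UpperHalfPlane) (A : Fin m → Set UpperHalfPlane)
      (B : Fin n → Set UpperHalfPlane) (P : UpperHalfPlane),
      1 ≤ m ∧ 1 ≤ n ∧ MeasurableSet X ∧ 0 < volume X ∧
      (∀ i, MeasurableSet (A i)) ∧ (∀ j, MeasurableSet (B j)) ∧
      IsPartition X A ∧ IsPartition X B ∧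
      IsPartition X (Sum.elim (fun i => ρ i '' A i) (fun j => σ j '' B j)) ∧
      (∀ i, dist P (ρ i P) < c) ∧ (∀ j, dist P (σ j P) < c) := by
  have hy : 0 < 2 / (c - Real.log 2) := div_pos two_pos (sub_pos.mpr hc)
  have hpart : IsPartition (strip 0 1) (fun _ : Fin 1 => strip 0 1) :=
    ⟨fun _ => strip_nonempty one_pos, fun i j hij => absurd (Subsingleton.elim i j) hij,
      Set.iUnion_const _⟩
  refine ⟨strip 0 1, 1, 1, fun _ => halve, fun _ => halve.trans shift, fun _ => strip 0 1,
    fun _ => strip 0 1, ⟨⟨0, 2 / (c - Real.log 2)⟩, hy⟩, le_rfl, le_rfl, strip_measurable 0 1,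
    volume_strip_pos, fun _ => strip_measurable 0 1, fun _ => strip_measurable 0 1, hpart, hpart,
    ?_, ?_, ?_⟩
  · simp only [image_halve, image_shift]
    have hd : Disjoint (strip 0 (1 / 2)) (strip (1 / 2) 1) :=
      Set.disjoint_left.mpr fun z h1 h2 => absurd h1.2 (not_lt.mpr h2.1)
    refine ⟨?_, ?_, ?_⟩
    · rintro (i | i)
      · exact strip_nonempty (by norm_num)
      · exact strip_nonempty (by norm_num)
    · rintro (i | i) (j | j) hij
      · exact absurd (congrArg _ (Subsingleton.elim i j)) hij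
      · exact hd
      · exact hd.symm
      · exact absurd (congrArg _ (Subsingleton.elim i j)) hij
    · rw [Set.iUnion_sum]
      simp only [Sum.elim_inl, Sum.elim_inr, Set.iUnion_const]
      ext z
      simp only [strip, Set.mem_union, Set.mem_ofPred_eq]
      constructor
      · rintro (⟨h1, h2⟩ | ⟨h1, h2⟩)
        · exact ⟨h1, by linarith⟩
        · exact ⟨by linarith, h2⟩
      · rintro ⟨h1, h2⟩
        rcases lt_or_ge z.re (1 / 2) with h | h
        · exact Or.inl ⟨h1, h⟩
        · exact Or.inr ⟨h, h2⟩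
  · intro _
    rw [dist_halve _ rfl]
    exact hc
  · intro _
    rw [IsometryEquiv.trans_apply]
    refine (dist_triangle _ (halve ⟨⟨0, 2 / (c - Real.log 2)⟩, hy⟩) _).trans_lt ?_
    have h1 := dist_shift (halve ⟨⟨0, 2 / (c - Real.log 2)⟩, hy⟩)
    rw [dist_halve _ rfl]
    rw [halve_im] at h1
    have h2 : (⟨⟨0, 2 / (c - Real.log 2)⟩, hy⟩ : UpperHalfPlane).im = 2 / (c - Real.log 2) := rfl
    rw [h2] at h1
    have h3 : 1 / 2 / (2 / (c - Real.log 2) / 2) = (c - Real.log 2) / 2 := by
      have := sub_pos.mpr hc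
      field_simp
    rw [h3] at h1
    linarith

end Pool.Agent.Results.MP_9ed947_gt.NoBetterConstant
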